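import Pool.Agent.N528.LeafCyc.Main
import Pool.Agent.N528.LeafCyc.Sanity

/-!
# A `C`-cycle on `ℂ²` which is not locally a superposition of pseudoholomorphic curves

`M = ℂ²`, foliated by its single leaf, with the complex structure `J v = i • v`. The cycle is the
tropical current supported by the three half spaces
`{Re z₁ = Re z₂ > 0}`, `{Re z₁ = 0 > Re z₂}`, `{Re z₂ = 0 > Re z₁}`, each of them foliated by
half lines; the boundaries of the three pieces cancel.
-/

open TopologicalSpace Pool.Agent.N528.LeafCyc

namespace Pool.Agent.Results.MP_03adb9_gt.TropicalCycle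

/-- There is a `C`-cycle `c` on `ℂ²` such that on no open neighbourhood `U` of the origin is `c` a
non-negative superposition of pseudoholomorphic curves in `U`. -/
theorem result : ∃ c : Current 2 ⊤, IsCCurrent c ∧ IsCycle c ∧
    ∀ U : Opens V, (0 : V) ∈ U → ¬ IsSuperposition (restr U c) :=
  main

end Pool.Agent.Results.MP_03adb9_gt.TropicalCycle
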